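import Mathlib

/-!
# Random permutation matrices: nullity of `B - Q`

Core induction. `S` is a subspace of `K^g × K^g` and `Gam Q` is the graph of the permutation `Q`.
If the space of vectors of `S` supported on the first factor is at most one dimensional, then
`2 * ∑ Q, 2 ^ dim (S ⊓ Gam Q) ≤ (g + 2)!`.
-/

set_option autoImplicit false

namespace Pool.Agent.Work.MP_dd2eb3_helper90

open Finset Module

variable {K : Type*} [Field K]

/-- The graph of a permutation: `w.2 (Q j) = w.1 j` for all `j`. -/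
def Gam (K : Type*) [Field K] {g : ℕ} (Q : Equiv.Perm (Fin g)) :
    Submodule K ((Fin g → K) × (Fin g → K)) where
  carrier := {w | ∀ j, w.2 (Q j) = w.1 j}
  add_mem' := by
    intro a b ha hb j
    simp only [Set.mem_ofPred_eq] at ha hb
    simp [ha j, hb j]
  zero_mem' := by intro j; simp
  smul_mem' := by
    intro c a ha j
    simp only [Set.mem_ofPred_eq] at ha
    simp [ha j]

theorem mem_Gam {g : ℕ} {Q : Equiv.Perm (Fin g)} {w : (Fin g → K) × (Fin g → K)} :
    w ∈ Gam K Q ↔ ∀ j, w.2 (Q j) = w.1 j := Iff.rfl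

/-- Extension of a permutation by `j ↦ i`. -/
def ext {g : ℕ} (j i : Fin (g + 1)) (Q : Equiv.Perm (Fin g)) : Equiv.Perm (Fin (g + 1)) :=
  (finSuccEquiv' j).trans ((Equiv.optionCongr Q).trans (finSuccEquiv' i).symm)

@[simp] theorem ext_self {g : ℕ} (j i : Fin (g + 1)) (Q : Equiv.Perm (Fin g)) :
    ext j i Q j = i := by
  simp [ext]

@[simp] theorem ext_succAbove {g : ℕ} (j i : Fin (g + 1)) (Q : Equiv.Perm (Fin g)) (a : Fin g) :
    ext j i Q (j.succAbove a) = i.succAbove (Q a) := by
  simp [ext]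

theorem ext_inj_snd {g : ℕ} {j i : Fin (g + 1)} {Q Q' : Equiv.Perm (Fin g)}
    (h : ext j i Q = ext j i Q') : Q = Q' := by
  ext1 a
  have := congrArg (fun e : Equiv.Perm (Fin (g + 1)) => e (j.succAbove a)) h
  simp only [ext_succAbove] at this
  exact Fin.succAbove_right_injective this

theorem ext_bij_col {g : ℕ} (j : Fin (g + 1)) :
    Function.Bijective (fun p : Fin (g + 1) × Equiv.Perm (Fin g) => ext j p.1 p.2) := by
  rw [Fintype.bijective_iff_injective_and_card]
  constructor
  · rintro ⟨i, Q⟩ ⟨i', Q'⟩ h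
    simp only at h
    have h1 : i = i' := by
      have := congrArg (fun e : Equiv.Perm (Fin (g + 1)) => e j) h
      simpa using this
    subst h1
    rw [ext_inj_snd h]
  · simp [Fintype.card_perm, Nat.factorial_succ]

theorem ext_bij_row {g : ℕ} (i : Fin (g + 1)) :
    Function.Bijective (fun p : Fin (g + 1) × Equiv.Perm (Fin g) => ext p.1 i p.2) := by
  rw [Fintype.bijective_iff_injective_and_card]
  constructor
  · rintro ⟨j, Q⟩ ⟨j', Q'⟩ h
    simp only at h
    have h1 : j = j' := by
      have h2 := congrArg (fun e : Equiv.Perm (Fin (g + 1)) => e j) h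
      simp only [ext_self] at h2
      have h3 : ext j' i Q' j' = ext j' i Q' j := by rw [ext_self, ← h2]
      exact ((ext j' i Q').injective h3).symm
    subst h1
    rw [ext_inj_snd h]
  · simp [Fintype.card_perm, Nat.factorial_succ]

theorem sum_col {g : ℕ} (j : Fin (g + 1)) (f : Equiv.Perm (Fin (g + 1)) → ℕ) :
    ∑ Q, f Q = ∑ i, ∑ Q', f (ext j i Q') := by
  rw [← Fintype.sum_prod_type' (f := fun i Q' => f (ext j i Q'))]
  exact (Function.Bijective.sum_comp (ext_bij_col j) f).symm

theorem sum_row {g : ℕ} (i : Fin (g + 1)) (f : Equiv.Perm (Fin (g + 1)) → ℕ) :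
    ∑ Q, f Q = ∑ j, ∑ Q', f (ext j i Q') := by
  rw [← Fintype.sum_prod_type' (f := fun j Q' => f (ext j i Q'))]
  exact (Function.Bijective.sum_comp (ext_bij_row i) f).symm

/-- Forget the coordinates `j` and `i`. -/
def res (K : Type*) [Field K] {g : ℕ} (j i : Fin (g + 1)) :
    ((Fin (g + 1) → K) × (Fin (g + 1) → K)) →ₗ[K] ((Fin g → K) × (Fin g → K)) where
  toFun w := (fun a => w.1 (j.succAbove a), fun a => w.2 (i.succAbove a))
  map_add' := by intro a b; rfl
  map_smul' := by intro a b; rfl

/-- The condition `w_j = w_i`. -/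
def eqn (K : Type*) [Field K] {g : ℕ} (j i : Fin (g + 1)) :
    Submodule K ((Fin (g + 1) → K) × (Fin (g + 1) → K)) where
  carrier := {w | w.1 j = w.2 i}
  add_mem' := by
    intro a b ha hb
    simp only [Set.mem_ofPred_eq] at ha hb ⊢
    simp [ha, hb]
  zero_mem' := by simp
  smul_mem' := by
    intro c a ha
    simp only [Set.mem_ofPred_eq] at ha ⊢
    simp [ha]

/-- The next state. -/
def nxt {g : ℕ} (S : Submodule K ((Fin (g + 1) → K) × (Fin (g + 1) → K))) (j i : Fin (g + 1)) :
    Submodule K ((Fin g → K) × (Fin g → K)) :=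
  (S ⊓ eqn K j i).map (res K j i)

theorem mem_nxt {g : ℕ} {S : Submodule K ((Fin (g + 1) → K) × (Fin (g + 1) → K))}
    {j i : Fin (g + 1)} {v : (Fin g → K) × (Fin g → K)} :
    v ∈ nxt S j i ↔ ∃ w ∈ S, w.1 j = w.2 i ∧ res K j i w = v := by
  constructor
  · rintro ⟨w, ⟨h1, h2⟩, h3⟩
    exact ⟨w, h1, h2, h3⟩
  · rintro ⟨w, h1, h2, h3⟩
    exact ⟨w, ⟨h1, h2⟩, h3⟩

/-- The vector with a one at `j` (first factor) and a one at `i` (second factor). -/
def ee (K : Type*) [Field K] {g : ℕ} (j i : Fin g) : (Fin g → K) × (Fin g → K) :=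
  (Pi.single j 1, Pi.single i 1)

/-- The nullity. -/
noncomputable def mu {g : ℕ} (S : Submodule K ((Fin g → K) × (Fin g → K)))
    (Q : Equiv.Perm (Fin g)) : ℕ :=
  finrank K (S ⊓ Gam K Q : Submodule K ((Fin g → K) × (Fin g → K)))

theorem res_eq_zero {g : ℕ} {j i : Fin (g + 1)} {w : (Fin (g + 1) → K) × (Fin (g + 1) → K)}
    (h : res K j i w = 0) (h2 : w.1 j = w.2 i) : w = w.1 j • ee K j i := by
  have h3 : ∀ a, w.1 (j.succAbove a) = 0 := fun a => congrFun (congrArg Prod.fst h) a
  have h4 : ∀ a, w.2 (i.succAbove a) = 0 := fun a => congrFun (congrArg Prod.snd h) a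
  ext b
  · simp only [ee, Prod.smul_mk, Pi.smul_apply, smul_eq_mul]
    rcases eq_or_ne b j with rfl | hb
    · simp
    · obtain ⟨a, rfl⟩ := Fin.exists_succAbove_eq hb
      rw [h3 a]
      simp
  · simp only [ee, Prod.smul_mk, Pi.smul_apply, smul_eq_mul]
    rcases eq_or_ne b i with rfl | hb
    · simp [h2]
    · obtain ⟨a, rfl⟩ := Fin.exists_succAbove_eq hb
      rw [h4 a]
      simp

theorem map_res {g : ℕ} (S : Submodule K ((Fin (g + 1) → K) × (Fin (g + 1) → K)))
    (j i : Fin (g + 1)) (Q : Equiv.Perm (Fin g)) :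
    (S ⊓ Gam K (ext j i Q)).map (res K j i) = nxt S j i ⊓ Gam K Q := by
  ext v
  constructor
  · rintro ⟨w, ⟨h1, h2⟩, rfl⟩
    have h2' := mem_Gam.1 h2
    refine ⟨mem_nxt.2 ⟨w, h1, ?_, rfl⟩, ?_⟩
    · have := h2' j
      rw [ext_self] at this
      exact this.symm
    · refine mem_Gam.2 ?_
      intro a
      have := h2' (j.succAbove a)
      rw [ext_succAbove] at this
      exact this
  · rintro ⟨h1, h2⟩
    obtain ⟨w, hw, h3, rfl⟩ := mem_nxt.1 h1
    have h2' := mem_Gam.1 h2
    refine ⟨w, ⟨hw, ?_⟩, rfl⟩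
    refine mem_Gam.2 ?_
    intro b
    rcases eq_or_ne b j with rfl | hb
    · rw [ext_self]; exact h3.symm
    · obtain ⟨a, rfl⟩ := Fin.exists_succAbove_eq hb
      rw [ext_succAbove]
      exact h2' a

open Classical in
theorem ker_inf {g : ℕ} (S : Submodule K ((Fin (g + 1) → K) × (Fin (g + 1) → K)))
    (j i : Fin (g + 1)) (Q : Equiv.Perm (Fin g)) :
    finrank K (LinearMap.ker (res K j i) ⊓ (S ⊓ Gam K (ext j i Q)) :
      Submodule K ((Fin (g + 1) → K) × (Fin (g + 1) → K))) = if ee K j i ∈ S then 1 else 0 := by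
  have hee : ee K j i ≠ 0 := by
    intro h
    have := congrFun (congrArg Prod.fst h) j
    simp [ee] at this
  split_ifs with h
  · have : (LinearMap.ker (res K j i) ⊓ (S ⊓ Gam K (ext j i Q)) :
      Submodule K ((Fin (g + 1) → K) × (Fin (g + 1) → K))) = Submodule.span K {ee K j i} := by
      apply le_antisymm
      · rintro w ⟨h1, h2, h3⟩
        have h3' := mem_Gam.1 h3 j
        rw [ext_self] at h3'
        have := res_eq_zero (LinearMap.mem_ker.1 h1) h3'.symm
        rw [this]
        exact Submodule.smul_mem _ _ (Submodule.mem_span_singleton_self _)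
      · rw [Submodule.span_singleton_le_iff_mem]
        refine ⟨?_, h, ?_⟩
        · rw [SetLike.mem_coe, LinearMap.mem_ker]
          ext a
          · simp [res, ee]
          · simp [res, ee]
        · refine mem_Gam.2 ?_
          intro b
          rcases eq_or_ne b j with rfl | hb
          · rw [ext_self]; simp [ee]
          · obtain ⟨a, rfl⟩ := Fin.exists_succAbove_eq hb
            rw [ext_succAbove]
            simp [ee]
    rw [this, finrank_span_singleton hee]
  · have : (LinearMap.ker (res K j i) ⊓ (S ⊓ Gam K (ext j i Q)) :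
      Submodule K ((Fin (g + 1) → K) × (Fin (g + 1) → K))) = ⊥ := by
      rw [eq_bot_iff]
      rintro w ⟨h1, h2, h3⟩
      have h3' := mem_Gam.1 h3 j
      rw [ext_self] at h3'
      have hw := res_eq_zero (LinearMap.mem_ker.1 h1) h3'.symm
      by_cases hc : w.1 j = 0
      · rw [hc, zero_smul] at hw
        rw [hw]
        exact Submodule.zero_mem _
      · exfalso
        apply h
        have : ee K j i = (w.1 j)⁻¹ • w := by
          conv_rhs => rw [hw]
          rw [smul_smul]
          simp [ee, hc]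
        rw [this]
        exact S.smul_mem _ h2
    rw [this, finrank_bot]

open Classical in
theorem mu_ext {g : ℕ} (S : Submodule K ((Fin (g + 1) → K) × (Fin (g + 1) → K)))
    (j i : Fin (g + 1)) (Q : Equiv.Perm (Fin g)) :
    mu S (ext j i Q) = mu (nxt S j i) Q + if ee K j i ∈ S then 1 else 0 := by
  unfold mu
  rw [← map_res S j i Q, ← ker_inf S j i Q]
  have h := LinearMap.finrank_range_add_finrank_ker
    ((res K j i).domRestrict (S ⊓ Gam K (ext j i Q)))
  rw [LinearMap.range_domRestrict] at h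
  rw [← h]
  congr 1
  rw [LinearMap.ker_domRestrict]
  have h2 : Submodule.comap (S ⊓ Gam K (ext j i Q)).subtype (LinearMap.ker (res K j i)) =
      Submodule.comap (S ⊓ Gam K (ext j i Q)).subtype
        (LinearMap.ker (res K j i) ⊓ (S ⊓ Gam K (ext j i Q))) := by
    ext x
    constructor
    · intro hx
      exact ⟨hx, x.2⟩
    · intro hx
      exact hx.1
  rw [h2]
  exact (Submodule.comapSubtypeEquivOfLe inf_le_right).finrank_eq

/-- The vectors of `S` supported on the first factor lie on one line. -/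
def Good {g : ℕ} (S : Submodule K ((Fin g → K) × (Fin g → K))) : Prop :=
  ∃ α : Fin g → K, ∀ x : Fin g → K, (x, (0 : Fin g → K)) ∈ S → ∃ c : K, x = c • α

theorem ee_sub {g : ℕ} {S : Submodule K ((Fin g → K) × (Fin g → K))} {j j' i : Fin g}
    (h : ee K j i ∈ S) (h' : ee K j' i ∈ S) :
    ((Pi.single j 1 - Pi.single j' 1 : Fin g → K), (0 : Fin g → K)) ∈ S := by
  have := S.sub_mem h h'
  simpa [ee] using this

/-- A vector `(x, s e_i)` described by its restriction. -/
theorem snd_eq {g : ℕ} {i j : Fin (g + 1)} {w : (Fin (g + 1) → K) × (Fin (g + 1) → K)}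
    {x' : Fin g → K} (h : res K j i w = (x', 0)) : w.2 = w.2 i • Pi.single i 1 := by
  have h4 : ∀ a, w.2 (i.succAbove a) = 0 := fun a => congrFun (congrArg Prod.snd h) a
  ext b
  rcases eq_or_ne b i with rfl | hb
  · simp
  · obtain ⟨a, rfl⟩ := Fin.exists_succAbove_eq hb
    rw [h4 a]
    simp

/-- Column step: if no nonzero vector of `S` supported on the first factor vanishes at `j`, then
every next state after revealing the image of `j` is good. -/
theorem good_col {g : ℕ} {S : Submodule K ((Fin (g + 1) → K) × (Fin (g + 1) → K))}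
    {j : Fin (g + 1)} (hj : ∀ x : Fin (g + 1) → K, (x, (0 : Fin (g + 1) → K)) ∈ S → x j = 0 → x = 0)
    (i : Fin (g + 1)) : Good (nxt S j i) := by
  by_cases h : ∃ w ∈ S, w.1 j = w.2 i ∧ w.2 = w.2 i • Pi.single i 1 ∧ w.2 i ≠ 0
  · obtain ⟨w0, h1, h2, h3, h4⟩ := h
    refine ⟨fun a => w0.1 (j.succAbove a), ?_⟩
    intro x' hx'
    obtain ⟨w, hw, hw1, hw2⟩ := mem_nxt.1 hx'
    have hw3 := snd_eq hw2
    refine ⟨w.2 i / w0.2 i, ?_⟩
    have hz : w - (w.2 i / w0.2 i) • w0 ∈ S := S.sub_mem hw (S.smul_mem _ h1)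
    have hz2 : (w - (w.2 i / w0.2 i) • w0).2 = 0 := by
      rw [Prod.snd_sub, Prod.smul_snd, hw3, h3, smul_smul]
      simp [div_mul_cancel₀ _ h4]
    have hz3 : (w - (w.2 i / w0.2 i) • w0).1 j = 0 := by
      rw [Prod.fst_sub, Prod.smul_fst, Pi.sub_apply, Pi.smul_apply, hw1, h2, smul_eq_mul,
        div_mul_cancel₀ _ h4, sub_self]
    have hz4 : (w - (w.2 i / w0.2 i) • w0).1 = 0 := by
      apply hj _ _ hz3
      rw [← hz2]
      exact hz
    have h5 : x' = fun a => w.1 (j.succAbove a) := by
      have := congrArg Prod.fst hw2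
      exact this.symm
    rw [h5]
    ext a
    have := congrFun hz4 (j.succAbove a)
    simp only [Prod.fst_sub, Prod.smul_fst, Pi.sub_apply, Pi.smul_apply, Pi.zero_apply] at this
    simpa using sub_eq_zero.1 this
  · refine ⟨0, ?_⟩
    intro x' hx'
    obtain ⟨w, hw, hw1, hw2⟩ := mem_nxt.1 hx'
    have hw3 := snd_eq hw2
    refine ⟨0, ?_⟩
    have h0 : w.2 i = 0 := by
      by_contra h0
      exact h ⟨w, hw, hw1, hw3, h0⟩
    have h6 : w.1 = 0 := by
      apply hj _ _ (by rw [hw1, h0])
      have : w.2 = 0 := by rw [hw3, h0, zero_smul]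
      rw [← this]
      exact hw
    have h5 : x' = fun a => w.1 (j.succAbove a) := by
      have := congrArg Prod.fst hw2
      exact this.symm
    rw [h5, h6]
    ext a
    simp

/-- Row step. -/
theorem good_row {g : ℕ} {S : Submodule K ((Fin (g + 1) → K) × (Fin (g + 1) → K))}
    {j0 i : Fin (g + 1)} {α : Fin (g + 1) → K} (hα : α j0 ≠ 0)
    (hS : ∀ x : Fin (g + 1) → K, (x, (0 : Fin (g + 1) → K)) ∈ S → ∃ c : K, x = c • α)
    (he : ee K j0 i ∈ S) (j : Fin (g + 1)) : Good (nxt S j i) := by
  refine ⟨fun a => (α j • (Pi.single j0 1 : Fin (g + 1) → K) + α) (j.succAbove a), ?_⟩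
  intro x' hx'
  obtain ⟨w, hw, hw1, hw2⟩ := mem_nxt.1 hx'
  have hw3 := snd_eq hw2
  have hz : w - (w.2 i) • ee K j0 i ∈ S := S.sub_mem hw (S.smul_mem _ he)
  have hz2 : (w - (w.2 i) • ee K j0 i).2 = 0 := by
    rw [Prod.snd_sub, Prod.smul_snd, hw3]
    simp [ee]
  obtain ⟨c, hc⟩ := hS (w - (w.2 i) • ee K j0 i).1 (by rw [← hz2]; exact hz)
  have h5 : x' = fun a => w.1 (j.succAbove a) := by
    have := congrArg Prod.fst hw2
    exact this.symm
  have h6 : ∀ b, w.1 b = w.2 i * (Pi.single j0 1 : Fin (g + 1) → K) b + c * α b := by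
    intro b
    have := congrFun hc b
    simp only [Prod.fst_sub, Prod.smul_fst, Pi.sub_apply, Pi.smul_apply, ee, smul_eq_mul] at this
    rw [← this]
    ring
  rcases eq_or_ne j j0 with rfl | hj
  · have h7 := h6 j
    rw [hw1] at h7
    have hc0 : c = 0 := by
      have : c * α j = 0 := by
        simp only [Pi.single_eq_same, mul_one] at h7
        linear_combination -h7
      exact (mul_eq_zero.1 this).resolve_right hα
    refine ⟨0, ?_⟩
    rw [h5]
    ext a
    rw [h6]
    simp [hc0]
  · have h7 := h6 j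
    rw [hw1] at h7
    have h8 : w.2 i = c * α j := by
      simpa [Pi.single_eq_of_ne hj] using h7
    refine ⟨c, ?_⟩
    rw [h5]
    ext a
    rw [h6, h8]
    simp only [Pi.smul_apply, Pi.add_apply, smul_eq_mul]
    ring

open Classical in
/-- One of the two kinds of steps is always possible. -/
theorem step {g : ℕ} (S : Submodule K ((Fin (g + 1) → K) × (Fin (g + 1) → K))) (hS : Good S) :
    (∃ j, (∀ i, Good (nxt S j i)) ∧ (univ.filter (fun i => ee K j i ∈ S)).card ≤ 2) ∨
    (∃ i, (∀ j, Good (nxt S j i)) ∧ (univ.filter (fun j => ee K j i ∈ S)).card ≤ 2) := by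
  by_cases h0 : ∀ x : Fin (g + 1) → K, (x, (0 : Fin (g + 1) → K)) ∈ S → x = 0
  · left
    -- for every `i` at most one `j`
    have h1 : ∀ i, (univ.filter (fun j => ee K j i ∈ S)).card ≤ 1 := by
      intro i
      rw [Finset.card_le_one]
      intro a ha b hb
      simp only [mem_filter, mem_univ, true_and] at ha hb
      have := h0 _ (ee_sub ha hb)
      by_contra hab
      have h2 := congrFun this a
      simp [Pi.single_eq_of_ne hab] at h2
    have h2 : ∑ j : Fin (g + 1), (univ.filter (fun i => ee K j i ∈ S)).card ≤ g + 1 := by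
      calc ∑ j : Fin (g + 1), (univ.filter (fun i => ee K j i ∈ S)).card
          = ∑ i : Fin (g + 1), (univ.filter (fun j => ee K j i ∈ S)).card := by
            simp only [Finset.card_filter]
            exact Finset.sum_comm
        _ ≤ ∑ _i : Fin (g + 1), 1 := Finset.sum_le_sum (fun i _ => h1 i)
        _ = g + 1 := by simp
    obtain ⟨j, hj⟩ : ∃ j : Fin (g + 1), (univ.filter (fun i => ee K j i ∈ S)).card ≤ 2 := by
      by_contra hcon
      push Not at hcon
      have : ∑ j : Fin (g + 1), 3 ≤ ∑ j : Fin (g + 1),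
          (univ.filter (fun i => ee K j i ∈ S)).card :=
        Finset.sum_le_sum (fun j _ => hcon j)
      simp at this
      omega
    exact ⟨j, fun i => good_col (fun x hx _ => h0 x hx) i, hj⟩
  · push Not at h0
    obtain ⟨α, hα, hα0⟩ := h0
    obtain ⟨β, hβ⟩ := hS
    obtain ⟨c0, hc0⟩ := hβ α hα
    have hc00 : c0 ≠ 0 := by
      rintro rfl
      exact hα0 (by rw [hc0, zero_smul])
    have hS' : ∀ x : Fin (g + 1) → K, (x, (0 : Fin (g + 1) → K)) ∈ S → ∃ c : K, x = c • α := by
      intro x hx
      obtain ⟨c, hc⟩ := hβ x hx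
      refine ⟨c * c0⁻¹, ?_⟩
      rw [hc, hc0, smul_smul, mul_assoc, inv_mul_cancel₀ hc00, mul_one]
    by_cases h1 : ∃ j0 i, α j0 ≠ 0 ∧ ee K j0 i ∈ S
    · obtain ⟨j0, i, h2, h3⟩ := h1
      right
      refine ⟨i, fun j => good_row h2 hS' h3 j, ?_⟩
      -- closing partners: `j0` and at most one more
      by_contra hcon
      push Not at hcon
      obtain ⟨s, hs1, hs2⟩ := Finset.exists_subset_card_eq (Nat.succ_le_of_lt hcon)
      have hs3 : 2 ≤ (s.erase j0).card := by
        have := Finset.pred_card_le_card_erase (s := s) (a := j0)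
        omega
      obtain ⟨a, ha, b, hb, hab⟩ := Finset.one_lt_card.1 (lt_of_lt_of_le one_lt_two hs3)
      have ha1 := Finset.ne_of_mem_erase ha
      have hb1 := Finset.ne_of_mem_erase hb
      have ha2 := hs1 (Finset.mem_of_mem_erase ha)
      have hb2 := hs1 (Finset.mem_of_mem_erase hb)
      simp only [mem_filter, mem_univ, true_and] at ha2 hb2
      obtain ⟨c1, hc1⟩ := hS' _ (ee_sub ha2 h3)
      obtain ⟨c2, hc2⟩ := hS' _ (ee_sub hb2 h3)
      have e1 := congrFun hc1 a
      have e2 := congrFun hc2 a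
      have e3 := congrFun hc2 b
      simp only [Pi.sub_apply, Pi.single_eq_same, Pi.smul_apply, smul_eq_mul,
        Pi.single_eq_of_ne ha1, Pi.single_eq_of_ne hab, Pi.single_eq_of_ne hb1] at e1 e2 e3
      have h5 : α a ≠ 0 := by
        intro h
        rw [h] at e1
        simp at e1
      have h6 : c2 = 0 := by
        have : c2 * α a = 0 := by
          rw [← e2]; simp
        exact (mul_eq_zero.1 this).resolve_right h5
      rw [h6] at e3
      simp at e3
    · push Not at h1
      left
      obtain ⟨j, hj⟩ : ∃ j, α j ≠ 0 := by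
        by_contra hcon
        push Not at hcon
        exact hα0 (funext hcon)
      refine ⟨j, fun i => good_col ?_ i, ?_⟩
      · intro x hx hxj
        obtain ⟨c, hc⟩ := hS' x hx
        rw [hc] at hxj
        have : c = 0 := by
          simp only [Pi.smul_apply, smul_eq_mul] at hxj
          exact (mul_eq_zero.1 hxj).resolve_right hj
        rw [hc, this, zero_smul]
      · have : (univ.filter (fun i => ee K j i ∈ S)) = ∅ := by
          ext i
          simp [h1 j i hj]
        rw [this]
        simp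

theorem sum_pow_ite {m : ℕ} (p : Fin m → Prop) [DecidablePred p] :
    ∑ i : Fin m, 2 ^ (if p i then 1 else 0) = m + (univ.filter p).card := by
  have : ∀ i : Fin m, 2 ^ (if p i then 1 else 0) = 1 + if p i then 1 else 0 := by
    intro i; split_ifs <;> rfl
  simp only [this]
  rw [Finset.sum_add_distrib, Finset.card_filter]
  simp

/-- The first inequality. -/
theorem first {g : ℕ} (S : Submodule K ((Fin g → K) × (Fin g → K))) (hS : Good S) :
    2 * ∑ Q, 2 ^ mu S Q ≤ (g + 2).factorial := by
  induction g with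
  | zero =>
    have h : ∀ Q, mu S Q = 0 := by
      intro Q
      unfold mu
      exact finrank_zero_of_subsingleton
    simp [h]
  | succ g ih =>
    classical
    rcases step S hS with ⟨j, h1, h2⟩ | ⟨i, h1, h2⟩
    · rw [sum_col j]
      calc 2 * ∑ i, ∑ Q', 2 ^ mu S (ext j i Q')
          = ∑ i, 2 ^ (if ee K j i ∈ S then 1 else 0) * (2 * ∑ Q', 2 ^ mu (nxt S j i) Q') := by
            rw [Finset.mul_sum]
            refine Finset.sum_congr rfl (fun i _ => ?_)
            simp only [mu_ext, pow_add, Finset.mul_sum]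
            refine Finset.sum_congr rfl (fun Q _ => ?_)
            ring
        _ ≤ ∑ i, 2 ^ (if ee K j i ∈ S then 1 else 0) * (g + 2).factorial :=
            Finset.sum_le_sum (fun i _ => Nat.mul_le_mul_left _ (ih _ (h1 i)))
        _ = ((g + 1) + (univ.filter (fun i => ee K j i ∈ S)).card) * (g + 2).factorial := by
            rw [← Finset.sum_mul, sum_pow_ite]
        _ ≤ (g + 3) * (g + 2).factorial := Nat.mul_le_mul_right _ (by omega)
        _ = (g + 1 + 2).factorial := (Nat.factorial_succ (g + 2)).symm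
    · rw [sum_row i]
      calc 2 * ∑ j, ∑ Q', 2 ^ mu S (ext j i Q')
          = ∑ j, 2 ^ (if ee K j i ∈ S then 1 else 0) * (2 * ∑ Q', 2 ^ mu (nxt S j i) Q') := by
            rw [Finset.mul_sum]
            refine Finset.sum_congr rfl (fun i _ => ?_)
            simp only [mu_ext, pow_add, Finset.mul_sum]
            refine Finset.sum_congr rfl (fun Q _ => ?_)
            ring
        _ ≤ ∑ j, 2 ^ (if ee K j i ∈ S then 1 else 0) * (g + 2).factorial :=
            Finset.sum_le_sum (fun i _ => Nat.mul_le_mul_left _ (ih _ (h1 i)))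
        _ = ((g + 1) + (univ.filter (fun j => ee K j i ∈ S)).card) * (g + 2).factorial := by
            rw [← Finset.sum_mul, sum_pow_ite]
        _ ≤ (g + 3) * (g + 2).factorial := Nat.mul_le_mul_right _ (by omega)
        _ = (g + 1 + 2).factorial := (Nat.factorial_succ (g + 2)).symm


open Classical in
theorem branch {g : ℕ} (S : Submodule K ((Fin (g + 1) → K) × (Fin (g + 1) → K)))
    (j i : Fin (g + 1)) (hg : Good (nxt S j i))
    (ih : ∑ Q, (if 1 ≤ mu (nxt S j i) Q then 2 ^ mu (nxt S j i) Q else 0) ≤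
      (g + 1) * (g + 2) * ∑ Q, (if 1 ≤ mu (nxt S j i) Q then 1 else 0)) :
    ∑ Q', (if 1 ≤ mu S (ext j i Q') then 2 ^ mu S (ext j i Q') else 0) ≤
      (g + 2) * (g + 3) * ∑ Q', (if 1 ≤ mu S (ext j i Q') then 1 else 0) := by
  by_cases h : ee K j i ∈ S
  · have h1 : ∀ Q', mu S (ext j i Q') = mu (nxt S j i) Q' + 1 := by
      intro Q'
      rw [mu_ext, if_pos h]
    simp only [h1, Nat.le_add_left, if_true, Finset.sum_const, Finset.card_univ,
      Fintype.card_perm, Fintype.card_fin, smul_eq_mul, mul_one]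
    calc ∑ Q, 2 ^ (mu (nxt S j i) Q + 1) = 2 * ∑ Q, 2 ^ mu (nxt S j i) Q := by
          rw [Finset.mul_sum]
          exact Finset.sum_congr rfl (fun Q _ => by ring)
      _ ≤ (g + 2).factorial := first _ hg
      _ = (g + 2) * ((g + 1) * g.factorial) := by
          rw [Nat.factorial_succ, Nat.factorial_succ]
      _ ≤ (g + 2) * ((g + 3) * g.factorial) := by gcongr; omega
      _ = (g + 2) * (g + 3) * g.factorial := by ring
  · have h1 : ∀ Q', mu S (ext j i Q') = mu (nxt S j i) Q' := by
      intro Q'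
      rw [mu_ext, if_neg h, add_zero]
    simp only [h1]
    refine ih.trans (Nat.mul_le_mul_right _ ?_)
    nlinarith

/-- The second inequality. -/
theorem second {g : ℕ} (S : Submodule K ((Fin g → K) × (Fin g → K))) (hS : Good S) :
    ∑ Q, (if 1 ≤ mu S Q then 2 ^ mu S Q else 0) ≤
      (g + 1) * (g + 2) * ∑ Q, (if 1 ≤ mu S Q then 1 else 0) := by
  induction g with
  | zero =>
    have h : ∀ Q, mu S Q = 0 := by
      intro Q
      unfold mu
      exact finrank_zero_of_subsingleton
    simp [h]
  | succ g ih =>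
    rcases step S hS with ⟨j, h1, -⟩ | ⟨i, h1, -⟩
    · rw [sum_col j, sum_col j, Finset.mul_sum]
      exact Finset.sum_le_sum (fun i _ => branch S j i (h1 i) (ih _ (h1 i)))
    · rw [sum_row i, sum_row i, Finset.mul_sum]
      exact Finset.sum_le_sum (fun j _ => branch S j i (h1 j) (ih _ (h1 j)))

end Pool.Agent.Work.MP_dd2eb3_helper90
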