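import Pool.Agent.Work.MP_dd2eb3_helper90.Minpoly

/-!
# Column permutations of an invertible matrix with logarithmic geometric multiplicities

For every field `F`, every `n` and every invertible `n × n` matrix `A` over `F`, some permutation
matrix `P` (in fact all but a small proportion of them) is such that every eigenvalue of `A P` in
the algebraic closure of `F` has geometric multiplicity at most `log₂ (n (n + 1) (n + 2))`.
-/

set_option autoImplicit false

namespace Pool.Agent.Work.MP_dd2eb3_helper90.LogGeometricMultiplicity

open Pool.Agent.Work.MP_dd2eb3_helper90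

/-- The geometric multiplicity of `μ` (an element of the algebraic closure `L` of `F`) for the
matrix `M` over `F`: the dimension over `L` of the space of all `x` in `L ^ n` with
`M x = μ x`. -/
noncomputable def geomMult {F : Type*} [Field F] {n : ℕ} (M : Matrix (Fin n) (Fin n) F)
    (μ : AlgebraicClosure F) : ℕ :=
  Module.finrank (AlgebraicClosure F) (Module.End.eigenspace
    (Matrix.toLin' (M.map (algebraMap F (AlgebraicClosure F)))) μ)

theorem geomMult_eq {F : Type*} [Field F] {n : ℕ} (A : Matrix (Fin n) (Fin n) F)
    (σ : Equiv.Perm (Fin n)) (μ : AlgebraicClosure F) :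
    geomMult (A * σ.permMatrix F) μ =
      gm (A.map (algebraMap F (AlgebraicClosure F)) * σ.permMatrix (AlgebraicClosure F)) μ := by
  have hmap : (A * σ.permMatrix F).map (algebraMap F (AlgebraicClosure F)) =
      A.map (algebraMap F (AlgebraicClosure F)) * σ.permMatrix (AlgebraicClosure F) := by
    rw [Matrix.map_mul]
    congr 1
    ext i j
    simp only [Matrix.map_apply, Equiv.Perm.permMatrix, PEquiv.toMatrix_apply]
    split_ifs <;> simp
  unfold geomMult
  rw [hmap]
  rfl

open Classical in
/-- Let `A` be an invertible `n × n` matrix over any field `F`; `P` runs over the `n!` permutation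
matrices, and geometric multiplicities are taken in the algebraic closure of `F`.
1. For each `k ≥ 1`, the number of `P` such that `A P` has an eigenvalue of geometric multiplicity
at least `k` is at most `n! n (n + 1) (n + 2) / 2 ^ k`.
2. Some `P` is such that all eigenvalues of `A P` have geometric multiplicity at most
`⌊log₂ (n (n + 1) (n + 2))⌋`, and the minimal polynomial of `A P` over `F` has degree at least `n`
divided by this number. -/
theorem result (F : Type*) [Field F] (n : ℕ) (A : Matrix (Fin n) (Fin n) F) (hA : IsUnit A) :
    (∀ k : ℕ, 1 ≤ k →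
      (Finset.univ.filter (fun σ : Equiv.Perm (Fin n) => ∃ μ : AlgebraicClosure F,
        k ≤ geomMult (A * σ.permMatrix F) μ)).card * 2 ^ k ≤
      n.factorial * (n * (n + 1) * (n + 2))) ∧
    (∃ σ : Equiv.Perm (Fin n),
      (∀ μ : AlgebraicClosure F, geomMult (A * σ.permMatrix F) μ ≤
        Nat.log 2 (n * (n + 1) * (n + 2))) ∧
      n ≤ Nat.log 2 (n * (n + 1) * (n + 2)) * (minpoly F (A * σ.permMatrix F)).natDegree) := by
  have hAL : IsUnit (A.map (algebraMap F (AlgebraicClosure F))) :=
    hA.map ((algebraMap F (AlgebraicClosure F)).mapMatrix)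
  refine ⟨fun k hk => ?_, ?_⟩
  · simp only [geomMult_eq]
    exact count hAL k hk
  · obtain ⟨σ, hσ⟩ := exists_perm hAL
    refine ⟨σ, ?_, ?_⟩
    · intro μ
      rw [geomMult_eq]
      exact hσ μ
    · apply le_mul_natDegree_minpoly (AlgebraicClosure F)
      intro μ
      have h := hσ μ
      rw [← geomMult_eq] at h
      exact h

end Pool.Agent.Work.MP_dd2eb3_helper90.LogGeometricMultiplicity
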