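import Pool.Agent.Work.MP_dd2eb3_helper90.Mult

/-!
# Geometric multiplicities and the degree of the minimal polynomial
-/

set_option autoImplicit false

namespace Pool.Agent.Work.MP_dd2eb3_helper90

open Module Polynomial

section lin

variable {L : Type*} [Field L] {V : Type*} [AddCommGroup V] [Module L V] [FiniteDimensional L V]

theorem finrank_ker_mul_le (f g : Module.End L V) :
    finrank L (LinearMap.ker (f * g)) ≤ finrank L (LinearMap.ker f) +
      finrank L (LinearMap.ker g) := by
  -- `h` is `g` restricted to `ker (f g)`
  let h : LinearMap.ker (f * g) →ₗ[L] V := g.domRestrict (LinearMap.ker (f * g))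
  have h1 := LinearMap.finrank_range_add_finrank_ker h
  have h2 : finrank L (LinearMap.range h) ≤ finrank L (LinearMap.ker f) := by
    apply Submodule.finrank_mono
    rintro _ ⟨x, rfl⟩
    exact x.2
  have h3 : finrank L (LinearMap.ker h) ≤ finrank L (LinearMap.ker g) := by
    let ι : LinearMap.ker h →ₗ[L] LinearMap.ker g :=
      { toFun := fun x => ⟨x.1.1, x.2⟩
        map_add' := fun _ _ => rfl
        map_smul' := fun _ _ => rfl }
    apply LinearMap.finrank_le_finrank_of_injective (f := ι)
    intro x y hxy
    apply Subtype.ext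
    apply Subtype.ext
    exact congrArg (fun z : LinearMap.ker g => z.1) hxy
  omega

theorem finrank_ker_prod_le (f : Module.End L V) (k : ℕ)
    (hk : ∀ t : L, finrank L (Module.End.eigenspace f t) ≤ k) (s : Multiset L) :
    finrank L (LinearMap.ker (aeval f (s.map (fun r => X - C r)).prod)) ≤ k * s.card := by
  induction s using Multiset.induction with
  | empty =>
    have : LinearMap.ker (aeval f ((0 : Multiset L).map (fun r => X - C r)).prod) = ⊥ := by
      rw [Multiset.map_zero, Multiset.prod_zero, map_one, eq_bot_iff]
      intro x hx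
      exact hx
    rw [this, finrank_bot]
    exact Nat.zero_le _
  | cons r s ih =>
    have h1 := finrank_ker_mul_le (aeval f (X - C r)) (aeval f (s.map (fun r => X - C r)).prod)
    have h2 : LinearMap.ker (aeval f (X - C r)) = Module.End.eigenspace f r := by
      rw [Module.End.eigenspace_def]
      simp [Algebra.algebraMap_eq_smul_one]
    have h4 : aeval f ((r ::ₘ s).map (fun r => X - C r)).prod =
        aeval f (X - C r) * aeval f (s.map (fun r => X - C r)).prod := by
      rw [Multiset.map_cons, Multiset.prod_cons, map_mul]
    rw [h4, Multiset.card_cons]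
    rw [h2] at h1
    have h3 := hk r
    calc _ ≤ _ := h1
      _ ≤ k + k * s.card := by omega
      _ = k * (s.card + 1) := by ring

theorem finrank_le_mul_natDegree [IsAlgClosed L] (f : Module.End L V) (k : ℕ)
    (hk : ∀ t : L, finrank L (Module.End.eigenspace f t) ≤ k) (p : L[X]) (hp : p ≠ 0)
    (h0 : aeval f p = 0) : finrank L V ≤ k * p.natDegree := by
  have hs : p = C p.leadingCoeff * (p.roots.map (fun r => X - C r)).prod :=
    (IsAlgClosed.splits p).eq_prod_roots
  have hc : p.roots.card = p.natDegree := ((IsAlgClosed.splits p).natDegree_eq_card_roots).symm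
  have h1 : aeval f (p.roots.map (fun r => X - C r)).prod = 0 := by
    rw [hs, map_mul, aeval_C] at h0
    have hl : p.leadingCoeff ≠ 0 := leadingCoeff_ne_zero.2 hp
    rw [← Algebra.smul_def] at h0
    exact (smul_eq_zero.1 h0).resolve_left hl
  have h2 := finrank_ker_prod_le f k hk p.roots
  rw [h1, hc] at h2
  have h3 : LinearMap.ker (0 : Module.End L V) = ⊤ := LinearMap.ker_zero
  rw [h3, finrank_top] at h2
  exact h2

end lin

variable {F : Type*} [Field F] {n : ℕ}

theorem le_mul_natDegree_minpoly (L : Type*) [Field L] [Algebra F L] [IsAlgClosed L]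
    (M : Matrix (Fin n) (Fin n) F) (k : ℕ)
    (hk : ∀ t : L, gm (M.map (algebraMap F L)) t ≤ k) :
    n ≤ k * (minpoly F M).natDegree := by
  have hint : IsIntegral F M := Algebra.IsIntegral.isIntegral M
  have hp : minpoly F M ≠ 0 := minpoly.ne_zero hint
  have h0 : aeval (M.map (algebraMap F L)) ((minpoly F M).map (algebraMap F L)) = 0 := by
    rw [aeval_map_algebraMap]
    have h := Polynomial.aeval_algHom_apply ((Algebra.ofId F L).mapMatrix (m := Fin n)) M
      (minpoly F M)
    rw [minpoly.aeval, map_zero] at h
    exact h
  have h1 : aeval (Matrix.toLin' (M.map (algebraMap F L)))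
      ((minpoly F M).map (algebraMap F L)) = 0 := by
    have h := Polynomial.aeval_algHom_apply
      (Matrix.toLinAlgEquiv' (R := L) (n := Fin n)).toAlgHom (M.map (algebraMap F L))
      ((minpoly F M).map (algebraMap F L))
    rw [h0, map_zero] at h
    exact h
  have h2 := finrank_le_mul_natDegree (Matrix.toLin' (M.map (algebraMap F L))) k hk
    ((minpoly F M).map (algebraMap F L)) (by
      rw [Ne, Polynomial.map_eq_zero]; exact hp) h1
  rw [Polynomial.natDegree_map] at h2
  simpa using h2

end Pool.Agent.Work.MP_dd2eb3_helper90
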