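import Pool.Agent.Work.MP_dd2eb3_helper90.Core

/-!
# From random permutations to geometric multiplicities of `A P`
-/

set_option autoImplicit false

namespace Pool.Agent.Work.MP_dd2eb3_helper90

open Finset Module

variable {L : Type*} [Field L] {n : ℕ}

/-- Geometric multiplicity of `t` for the matrix `M`. -/
noncomputable def gm (M : Matrix (Fin n) (Fin n) L) (t : L) : ℕ :=
  finrank L (Module.End.eigenspace (Matrix.toLin' M) t)

/-- The graph of `t⁻¹ A`. -/
def gr (A : Matrix (Fin n) (Fin n) L) (t : L) : Submodule L ((Fin n → L) × (Fin n → L)) where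
  carrier := {w | A.mulVec w.1 = t • w.2}
  add_mem' := by
    intro a b ha hb
    simp only [Set.mem_ofPred_eq] at ha hb ⊢
    rw [Prod.fst_add, Prod.snd_add, Matrix.mulVec_add, ha, hb, smul_add]
  zero_mem' := by simp
  smul_mem' := by
    intro c a ha
    simp only [Set.mem_ofPred_eq] at ha ⊢
    rw [Prod.smul_fst, Prod.smul_snd, Matrix.mulVec_smul, ha, smul_comm]

theorem mem_gr {A : Matrix (Fin n) (Fin n) L} {t : L} {w : (Fin n → L) × (Fin n → L)} :
    w ∈ gr A t ↔ A.mulVec w.1 = t • w.2 := Iff.rfl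

theorem mulVec_inj {A : Matrix (Fin n) (Fin n) L} (hA : IsUnit A) {x : Fin n → L}
    (h : A.mulVec x = 0) : x = 0 := by
  have := (Matrix.mulVec_injective_iff_isUnit.2 hA)
  apply this
  rw [h, Matrix.mulVec_zero]

theorem good_gr {A : Matrix (Fin n) (Fin n) L} (hA : IsUnit A) (t : L) : Good (gr A t) := by
  refine ⟨0, fun x hx => ⟨0, ?_⟩⟩
  have := mem_gr.1 hx
  simp only [smul_zero] at this
  rw [mulVec_inj hA this, smul_zero]

theorem permMatrix_mulVec (σ : Equiv.Perm (Fin n)) (x : Fin n → L) :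
    (σ.permMatrix L).mulVec x = fun j => x (σ j) := by
  ext j
  simp [Equiv.Perm.permMatrix, Matrix.mulVec, dotProduct, PEquiv.toMatrix, Equiv.toPEquiv]

/-- The map `x ↦ (P x, x)`. -/
def lift (σ : Equiv.Perm (Fin n)) : (Fin n → L) →ₗ[L] ((Fin n → L) × (Fin n → L)) where
  toFun x := (fun j => x (σ j), x)
  map_add' := by intro a b; rfl
  map_smul' := by intro a b; rfl

theorem lift_inj (σ : Equiv.Perm (Fin n)) : Function.Injective (lift (L := L) σ) := by
  intro a b h
  exact congrArg Prod.snd h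

theorem gm_eq_mu {A : Matrix (Fin n) (Fin n) L} {t : L} (_ht : t ≠ 0) (σ : Equiv.Perm (Fin n)) :
    gm (A * σ.permMatrix L) t = mu (gr A t) σ := by
  unfold gm mu
  have h : (Module.End.eigenspace (Matrix.toLin' (A * σ.permMatrix L)) t).map (lift σ) =
      gr A t ⊓ Gam L σ := by
    ext w
    constructor
    · rintro ⟨x, hx, rfl⟩
      rw [SetLike.mem_coe, Module.End.mem_eigenspace_iff, Matrix.toLin'_apply,
        ← Matrix.mulVec_mulVec, permMatrix_mulVec] at hx
      exact ⟨hx, fun j => rfl⟩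
    · rintro ⟨h1, h2⟩
      have h1' := mem_gr.1 h1
      have h2' := mem_Gam.1 h2
      refine ⟨w.2, ?_, ?_⟩
      · rw [SetLike.mem_coe, Module.End.mem_eigenspace_iff, Matrix.toLin'_apply,
          ← Matrix.mulVec_mulVec, permMatrix_mulVec]
        have : (fun j => w.2 (σ j)) = w.1 := funext h2'
        rw [this]
        exact h1'
      · exact Prod.ext (funext h2') rfl
  rw [← h]
  exact (Submodule.equivMapOfInjective (lift σ) (lift_inj σ) _).finrank_eq

theorem isUnit_mul_perm {A : Matrix (Fin n) (Fin n) L} (hA : IsUnit A) (σ : Equiv.Perm (Fin n)) :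
    IsUnit (A * σ.permMatrix L) := by
  apply hA.mul
  rw [Matrix.isUnit_iff_isUnit_det, Matrix.det_permutation]
  rcases Int.units_eq_one_or (Equiv.Perm.sign σ) with h | h <;> rw [h] <;> simp

theorem gm_zero {A : Matrix (Fin n) (Fin n) L} (hA : IsUnit A) (σ : Equiv.Perm (Fin n)) :
    gm (A * σ.permMatrix L) 0 = 0 := by
  unfold gm
  have : Module.End.eigenspace (Matrix.toLin' (A * σ.permMatrix L)) 0 = ⊥ := by
    rw [eq_bot_iff]
    intro x hx
    rw [Module.End.mem_eigenspace_iff, zero_smul, Matrix.toLin'_apply] at hx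
    exact mulVec_inj (isUnit_mul_perm hA σ) hx
  rw [this, finrank_bot]

/-- Fixed eigenvalue. -/
theorem fixed {A : Matrix (Fin n) (Fin n) L} (hA : IsUnit A) (t : L) :
    2 * ∑ σ : Equiv.Perm (Fin n), 2 ^ gm (A * σ.permMatrix L) t ≤ (n + 2).factorial := by
  by_cases ht : t = 0
  · subst ht
    simp only [gm_zero hA, pow_zero, Finset.sum_const, Finset.card_univ, Fintype.card_perm,
      Fintype.card_fin, smul_eq_mul, mul_one]
    rw [Nat.factorial_succ, Nat.factorial_succ]
    calc 2 * n.factorial ≤ ((n + 1 + 1) * (n + 1)) * n.factorial := by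
          apply Nat.mul_le_mul_right; nlinarith
      _ = (n + 1 + 1) * ((n + 1) * n.factorial) := by ring
  · simp only [gm_eq_mu ht]
    exact first _ (good_gr hA t)

theorem fixed' {A : Matrix (Fin n) (Fin n) L} (hA : IsUnit A) (t : L) :
    ∑ σ : Equiv.Perm (Fin n), (if 1 ≤ gm (A * σ.permMatrix L) t then
      2 ^ gm (A * σ.permMatrix L) t else 0) ≤
      (n + 1) * (n + 2) * ∑ σ : Equiv.Perm (Fin n),
        (if 1 ≤ gm (A * σ.permMatrix L) t then 1 else 0) := by
  by_cases ht : t = 0
  · subst ht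
    simp [gm_zero hA]
  · simp only [gm_eq_mu ht]
    exact second _ (good_gr hA t)

/-- The eigenvalues form a finite set with at most `n` elements. -/
theorem exists_eig (M : Matrix (Fin n) (Fin n) L) :
    ∃ E : Finset L, E.card ≤ n ∧ ∀ t, 1 ≤ gm M t → t ∈ E := by
  classical
  refine ⟨M.charpoly.roots.toFinset, ?_, ?_⟩
  · calc M.charpoly.roots.toFinset.card ≤ M.charpoly.roots.card := Multiset.toFinset_card_le _
      _ ≤ M.charpoly.natDegree := Polynomial.card_roots' _
      _ = n := by rw [Matrix.charpoly_natDegree_eq_dim, Fintype.card_fin]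
  · intro t ht
    rw [Multiset.mem_toFinset, Polynomial.mem_roots M.charpoly_monic.ne_zero]
    rw [← Matrix.mem_spectrum_iff_isRoot_charpoly, ← Matrix.spectrum_toLin',
      ← Module.End.hasEigenvalue_iff_mem_spectrum]
    rw [Module.End.hasEigenvalue_iff]
    intro h
    unfold gm at ht
    rw [h, finrank_bot] at ht
    omega

open Classical in
/-- All eigenvalues together. -/
theorem count {A : Matrix (Fin n) (Fin n) L} (hA : IsUnit A) (k : ℕ) (hk : 1 ≤ k) :
    (univ.filter (fun σ : Equiv.Perm (Fin n) => ∃ t : L, k ≤ gm (A * σ.permMatrix L) t)).card *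
      2 ^ k ≤ n.factorial * (n * (n + 1) * (n + 2)) := by
  choose E hE1 hE2 using fun σ : Equiv.Perm (Fin n) => exists_eig (A * σ.permMatrix L)
  set T : Finset L := univ.biUnion E with hT
  calc (univ.filter (fun σ : Equiv.Perm (Fin n) => ∃ t : L, k ≤ gm (A * σ.permMatrix L) t)).card *
      2 ^ k = ∑ σ ∈ univ.filter (fun σ : Equiv.Perm (Fin n) =>
          ∃ t : L, k ≤ gm (A * σ.permMatrix L) t), 2 ^ k := by
        rw [Finset.sum_const, smul_eq_mul]
    _ ≤ ∑ σ ∈ univ.filter (fun σ : Equiv.Perm (Fin n) =>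
          ∃ t : L, k ≤ gm (A * σ.permMatrix L) t), ∑ t ∈ T,
          (if 1 ≤ gm (A * σ.permMatrix L) t then 2 ^ gm (A * σ.permMatrix L) t else 0) := by
        apply Finset.sum_le_sum
        intro σ hσ
        obtain ⟨t, ht⟩ := (Finset.mem_filter.1 hσ).2
        have htT : t ∈ T := by
          rw [hT, Finset.mem_biUnion]
          exact ⟨σ, mem_univ _, hE2 σ t (hk.trans ht)⟩
        calc 2 ^ k ≤ 2 ^ gm (A * σ.permMatrix L) t := Nat.pow_le_pow_right (by norm_num) ht
          _ = (if 1 ≤ gm (A * σ.permMatrix L) t then 2 ^ gm (A * σ.permMatrix L) t else 0) := by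
            rw [if_pos (hk.trans ht)]
          _ ≤ _ := Finset.single_le_sum (f := fun t =>
            (if 1 ≤ gm (A * σ.permMatrix L) t then 2 ^ gm (A * σ.permMatrix L) t else 0))
              (fun _ _ => Nat.zero_le _) htT
    _ ≤ ∑ σ : Equiv.Perm (Fin n), ∑ t ∈ T,
          (if 1 ≤ gm (A * σ.permMatrix L) t then 2 ^ gm (A * σ.permMatrix L) t else 0) :=
        Finset.sum_le_sum_of_subset (Finset.filter_subset _ _)
    _ = ∑ t ∈ T, ∑ σ : Equiv.Perm (Fin n),
          (if 1 ≤ gm (A * σ.permMatrix L) t then 2 ^ gm (A * σ.permMatrix L) t else 0) :=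
        Finset.sum_comm
    _ ≤ ∑ t ∈ T, (n + 1) * (n + 2) * ∑ σ : Equiv.Perm (Fin n),
          (if 1 ≤ gm (A * σ.permMatrix L) t then 1 else 0) :=
        Finset.sum_le_sum (fun t _ => fixed' hA t)
    _ = (n + 1) * (n + 2) * ∑ σ : Equiv.Perm (Fin n), ∑ t ∈ T,
          (if 1 ≤ gm (A * σ.permMatrix L) t then 1 else 0) := by
        rw [← Finset.mul_sum, Finset.sum_comm]
    _ ≤ (n + 1) * (n + 2) * ∑ _σ : Equiv.Perm (Fin n), n := by
        gcongr with σ _
        rw [← Finset.card_filter]
        refine (Finset.card_le_card ?_).trans (hE1 σ)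
        intro t ht
        exact hE2 σ t (Finset.mem_filter.1 ht).2
    _ = n.factorial * (n * (n + 1) * (n + 2)) := by
        rw [Finset.sum_const, Finset.card_univ, Fintype.card_perm, Fintype.card_fin, smul_eq_mul]
        ring

open Classical in
theorem exists_perm {A : Matrix (Fin n) (Fin n) L} (hA : IsUnit A) :
    ∃ σ : Equiv.Perm (Fin n), ∀ t : L, gm (A * σ.permMatrix L) t ≤
      Nat.log 2 (n * (n + 1) * (n + 2)) := by
  by_contra hcon
  push Not at hcon
  have h := count hA (Nat.log 2 (n * (n + 1) * (n + 2)) + 1) (by omega)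
  have h1 : univ.filter (fun σ : Equiv.Perm (Fin n) => ∃ t : L,
      Nat.log 2 (n * (n + 1) * (n + 2)) + 1 ≤ gm (A * σ.permMatrix L) t) = univ := by
    ext σ
    simp only [mem_filter, mem_univ, true_and, iff_true]
    obtain ⟨t, ht⟩ := hcon σ
    exact ⟨t, ht⟩
  rw [h1, Finset.card_univ, Fintype.card_perm, Fintype.card_fin] at h
  have h2 : n * (n + 1) * (n + 2) < 2 ^ (Nat.log 2 (n * (n + 1) * (n + 2)) + 1) :=
    Nat.lt_pow_succ_log_self (by norm_num) _
  have h3 : 0 < n.factorial := Nat.factorial_pos n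
  have h4 := Nat.le_of_mul_le_mul_left h h3
  omega

end Pool.Agent.Work.MP_dd2eb3_helper90
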